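import Pool.Agent.N661.BR.Stm

/-!
# BR/J0: measures of directions with vanishing even Fourier coefficients
-/

set_option autoImplicit false
open MeasureTheory Filter Topology

namespace Pool.Agent.N278.BR

open Pool.Agent.N661.BR
open Pool.Agent.Y265.RW (sy rr)

noncomputable section

instance factPi : Fact (0 < Real.pi) := ⟨Real.pi_pos⟩

theorem fourier_pi (n : ℤ) (x : ℝ) :
    fourier n (x : AddCircle Real.pi) = Complex.exp (2 * n * x * Complex.I) := by
  rw [fourier_coe_apply]
  congr 1
  have : (Real.pi : ℂ) ≠ 0 := by exact_mod_cast Real.pi_ne_zero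
  field_simp

theorem sy_zpow (l : ℤ) (x : ℝ) :
    sy x ^ (2 * l) = (-1) ^ l * Complex.exp (-(2 * l * x * Complex.I)) := by
  unfold sy
  rw [zpow_mul]
  have h1 : (Complex.I * Complex.exp (-(x : ℂ) * Complex.I)) ^ (2 : ℤ) =
      -1 * Complex.exp (-(2 * x * Complex.I)) := by
    rw [zpow_ofNat, mul_pow, Complex.I_sq, ← Complex.exp_nat_mul]
    congr 2
    push_cast
    ring
  rw [h1, mul_zpow, ← Complex.exp_int_mul]
  congr 2
  ring

/-- the integral against `ν` of a trigonometric monomial -/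
theorem int_fourier (ν : Measure ℝ) (h : ∀ l : ℤ, l ≠ 0 → cf ν (2 * l) = 0) {n : ℤ} (hn : n ≠ 0) :
    ∫ x : ℝ, fourier n (x : AddCircle Real.pi) ∂ν = 0 := by
  have h1 := h (-n) (neg_ne_zero.2 hn)
  unfold cf at h1
  simp_rw [sy_zpow, fourier_pi] at h1 ⊢
  rw [integral_const_mul] at h1
  have h2 : ((-1 : ℂ)) ^ (-n) ≠ 0 := zpow_ne_zero _ (by norm_num)
  have h3 := (mul_eq_zero.1 h1).resolve_left h2
  rw [← h3]
  refine integral_congr_ae (Eventually.of_forall fun x => ?_)
  show Complex.exp _ = Complex.exp _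
  congr 1
  push_cast
  ring

theorem intv_fourier {n : ℤ} (hn : n ≠ 0) :
    ∫ x in (0:ℝ)..Real.pi, fourier n (x : AddCircle Real.pi) = 0 := by
  simp_rw [fourier_pi]
  have hc : (2 * (n : ℂ) * Complex.I) ≠ 0 := by
    refine mul_ne_zero (mul_ne_zero (by norm_num) (by exact_mod_cast hn)) Complex.I_ne_zero
  have h1 : ∀ x : ℝ, Complex.exp (2 * n * x * Complex.I) =
      Complex.exp (2 * (n : ℂ) * Complex.I * x) := fun x => by
    congr 1
    ring
  simp_rw [h1]
  rw [integral_exp_mul_complex hc]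
  have h2 : Complex.exp (2 * (n : ℂ) * Complex.I * (Real.pi : ℝ)) = 1 := by
    rw [show 2 * (n : ℂ) * Complex.I * (Real.pi : ℝ) = n * (2 * Real.pi * Complex.I) by ring]
    exact Complex.exp_int_mul_two_pi_mul_I n
  rw [h2]
  simp

/-- the difference of the two means -/
def dif (ν : Measure ℝ) (g : C(AddCircle Real.pi, ℂ)) : ℂ :=
  ∫ x : ℝ, g (x : AddCircle Real.pi) ∂ν -
    (1 / Real.pi : ℝ) * ∫ x in (0:ℝ)..Real.pi, g (x : AddCircle Real.pi)

theorem cont_coe (g : C(AddCircle Real.pi, ℂ)) :
    Continuous fun x : ℝ => g (x : AddCircle Real.pi) :=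
  g.continuous.comp (AddCircle.continuous_mk' Real.pi)

theorem int_nu (ν : Measure ℝ) [IsProbabilityMeasure ν] (g : C(AddCircle Real.pi, ℂ)) :
    Integrable (fun x : ℝ => g (x : AddCircle Real.pi)) ν :=
  Integrable.of_bound (cont_coe g).aestronglyMeasurable ‖g‖
    (Eventually.of_forall fun x => g.norm_coe_le_norm _)

theorem dif_add (ν : Measure ℝ) [IsProbabilityMeasure ν] (g g' : C(AddCircle Real.pi, ℂ)) :
    dif ν (g + g') = dif ν g + dif ν g' := by
  unfold dif
  simp only [ContinuousMap.add_apply]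
  rw [integral_add (int_nu ν g) (int_nu ν g'),
    intervalIntegral.integral_add ((cont_coe g).intervalIntegrable _ _)
      ((cont_coe g').intervalIntegrable _ _)]
  ring

theorem dif_smul (ν : Measure ℝ) (c : ℂ) (g : C(AddCircle Real.pi, ℂ)) :
    dif ν (c • g) = c * dif ν g := by
  unfold dif
  simp only [ContinuousMap.smul_apply, smul_eq_mul]
  rw [integral_const_mul, intervalIntegral.integral_const_mul]
  ring

theorem dif_bound (ν : Measure ℝ) [IsProbabilityMeasure ν] (g : C(AddCircle Real.pi, ℂ)) :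
    ‖dif ν g‖ ≤ 2 * ‖g‖ := by
  unfold dif
  have h1 : ‖∫ x : ℝ, g (x : AddCircle Real.pi) ∂ν‖ ≤ ‖g‖ := by
    have := norm_integral_le_of_norm_le_const (μ := ν) (C := ‖g‖)
      (f := fun x : ℝ => g (x : AddCircle Real.pi))
      (Eventually.of_forall fun x => g.norm_coe_le_norm _)
    simpa using this
  have h2 : ‖∫ x in (0:ℝ)..Real.pi, g (x : AddCircle Real.pi)‖ ≤ ‖g‖ * |Real.pi - 0| :=
    intervalIntegral.norm_integral_le_of_norm_le_const fun x _ => g.norm_coe_le_norm _
  rw [sub_zero, abs_of_pos Real.pi_pos] at h2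
  have h3 : ‖((1 / Real.pi : ℝ) : ℂ) * ∫ x in (0:ℝ)..Real.pi, g (x : AddCircle Real.pi)‖ ≤ ‖g‖ := by
    rw [norm_mul, Complex.norm_real, Real.norm_eq_abs, abs_of_pos (by positivity)]
    calc 1 / Real.pi * ‖∫ x in (0:ℝ)..Real.pi, g (x : AddCircle Real.pi)‖
        ≤ 1 / Real.pi * (‖g‖ * Real.pi) := by gcongr
      _ = ‖g‖ := by field_simp
  calc ‖_ - _‖ ≤ _ + _ := norm_sub_le _ _
    _ ≤ ‖g‖ + ‖g‖ := add_le_add h1 h3
    _ = 2 * ‖g‖ := by ring

theorem dif_zero (ν : Measure ℝ) [IsProbabilityMeasure ν]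
    (h : ∀ l : ℤ, l ≠ 0 → cf ν (2 * l) = 0) (g : C(AddCircle Real.pi, ℂ)) : dif ν g = 0 := by
  have hspan : ∀ p ∈ Submodule.span ℂ (Set.range (@fourier Real.pi)), dif ν p = 0 := by
    intro p hp
    induction hp using Submodule.span_induction with
    | mem p hp =>
      obtain ⟨n, rfl⟩ := hp
      unfold dif
      rcases eq_or_ne n 0 with rfl | hn
      · simp only [fourier_zero]
        have : (Real.pi : ℂ) ≠ 0 := by exact_mod_cast Real.pi_ne_zero
        simp
      · rw [int_fourier ν h hn, intv_fourier hn]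
        simp
    | zero =>
      unfold dif
      simp
    | add p q _ _ hp hq => rw [dif_add, hp, hq, add_zero]
    | smul c p _ hp => rw [dif_smul, hp, mul_zero]
  have hcl : g ∈ (Submodule.span ℂ (Set.range (@fourier Real.pi))).topologicalClosure := by
    rw [span_fourier_closure_eq_top]
    trivial
  rw [← SetLike.mem_coe, Submodule.topologicalClosure_coe, Metric.mem_closure_iff] at hcl
  by_contra hne
  have hpos : 0 < ‖dif ν g‖ := norm_pos_iff.2 hne
  obtain ⟨p, hp, hd⟩ := hcl (‖dif ν g‖ / 2) (by positivity)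
  have h1 : dif ν g = dif ν (g - p) := by
    have h2 := dif_add ν (g - p) p
    rw [sub_add_cancel, hspan p hp, add_zero] at h2
    exact h2
  have h3 := dif_bound ν (g - p)
  rw [← h1, ← dist_eq_norm] at h3
  linarith

/-- a continuous function of period `π` -/
def lft (g : ℝ → ℂ) (hg : Continuous g) (hp : Function.Periodic g Real.pi) :
    C(AddCircle Real.pi, ℂ) := ⟨hp.lift, by
  refine continuous_coinduced_dom.mpr ?_
  exact hg⟩

theorem J0cov : S_J0 := by
  intro ν _ h w
  set r : ℝ := ‖w‖ with hr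
  set t : ℝ := w.arg with ht
  have hw : ∀ x : ℝ, w.re * Real.cos x + w.im * Real.sin x = r * Real.cos (x - t) := by
    intro x
    have h1 : w.re = r * Real.cos t := (Complex.norm_mul_cos_arg w).symm
    have h2 : w.im = r * Real.sin t := (Complex.norm_mul_sin_arg w).symm
    rw [h1, h2, Real.cos_sub]
    ring
  have hper : ∀ s : ℝ, Function.Periodic (fun x : ℝ => Real.cos (r * Real.cos (x - s))) Real.pi := by
    intro s x
    show Real.cos (r * Real.cos (x + Real.pi - s)) = Real.cos (r * Real.cos (x - s))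
    rw [show x + Real.pi - s = (x - s) + Real.pi by ring, Real.cos_add_pi, mul_neg, Real.cos_neg]
  set g : C(AddCircle Real.pi, ℂ) := lft (fun x => ((Real.cos (r * Real.cos (x - t)) : ℝ) : ℂ))
    (by fun_prop) (fun x => by
      have := hper t x
      dsimp only at this ⊢
      rw [this]) with hg
  have hgx : ∀ x : ℝ, g (x : AddCircle Real.pi) = ((Real.cos (r * Real.cos (x - t)) : ℝ) : ℂ) :=
    fun x => rfl
  have h0 := dif_zero ν h g
  unfold dif at h0
  simp_rw [hgx] at h0
  rw [integral_complex_ofReal, intervalIntegral.integral_ofReal, sub_eq_zero] at h0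
  have h1 : ∫ x : ℝ, Real.cos (r * Real.cos (x - t)) ∂ν =
      1 / Real.pi * ∫ x in (0:ℝ)..Real.pi, Real.cos (r * Real.cos (x - t)) := by
    exact_mod_cast h0
  unfold cov
  simp_rw [hw]
  rw [h1]
  have h2 : ∫ x in (0:ℝ)..Real.pi, Real.cos (r * Real.cos (x - t)) =
      ∫ x in (0:ℝ)..Real.pi, Real.cos (r * Real.cos x) := by
    have h3 := intervalIntegral.integral_comp_sub_right
      (a := 0) (b := Real.pi) (fun x => Real.cos (r * Real.cos x)) t
    rw [h3]
    have hp0 : Function.Periodic (fun x : ℝ => Real.cos (r * Real.cos x)) Real.pi := by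
      have := hper 0
      simpa using this
    have h4 := hp0.intervalIntegral_add_eq (0 - t) 0
    rw [zero_add] at h4
    rw [← h4]
    congr 1
    ring
  have h5 : ∫ x in (0:ℝ)..(2 * Real.pi), Real.cos (r * Real.cos x) =
      2 * ∫ x in (0:ℝ)..Real.pi, Real.cos (r * Real.cos x) := by
    have hc : Continuous fun x : ℝ => Real.cos (r * Real.cos x) := by fun_prop
    have hp0 : Function.Periodic (fun x : ℝ => Real.cos (r * Real.cos x)) Real.pi := by
      have := hper 0
      simpa using this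
    have h6 := hp0.intervalIntegral_add_eq Real.pi 0
    rw [zero_add] at h6
    rw [← intervalIntegral.integral_add_adjacent_intervals (b := Real.pi)
      (hc.intervalIntegrable _ _) (hc.intervalIntegrable _ _),
      show (2 : ℝ) * Real.pi = Real.pi + Real.pi by ring, h6]
    ring
  unfold J0
  rw [h2, h5]
  have := Real.pi_ne_zero
  field_simp

end

end Pool.Agent.N278.BR
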