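import Pool.Agent.N661.BR.Base

/-!
# BR/GAU: the four point functions of Gaussian laws on `MW`
-/

set_option autoImplicit false
open MeasureTheory Filter Topology ProbabilityTheory
open scoped ENNReal NNReal

namespace Pool.Agent.N278.BR

open Pool.Agent.N661.BR

/-! ### moments of the normal law -/

theorem g_int (v : ℝ≥0) (k : ℕ) : Integrable (fun x : ℝ => |x| ^ k) (gaussianReal 0 v) := by
  rcases Nat.eq_zero_or_pos k with rfl | hk
  · simp
  · have h := memLp_id_gaussianReal' (μ := 0) (v := v) (k : ℝ≥0∞) (by simp)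
    have h2 := h.integrable_norm_pow hk.ne'
    simpa using h2

theorem g_int' (v : ℝ≥0) (k : ℕ) : Integrable (fun x : ℝ => x ^ k) (gaussianReal 0 v) := by
  refine (g_int v k).mono (by fun_prop) (Filter.Eventually.of_forall (fun x => ?_))
  simp

theorem g_m4 (v : ℝ≥0) : ∫ x, x ^ 4 ∂(gaussianReal 0 v) = 3 * (v : ℝ) ^ 2 := by
  have h := iteratedDeriv_mgf_zero (X := fun x : ℝ => x) (μ := gaussianReal 0 v) (by simp) 4
  have h0 : (gaussianReal 0 v)[(fun x : ℝ => x) ^ 4] = ∫ x, x ^ 4 ∂(gaussianReal 0 v) := rfl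
  rw [h0] at h
  rw [← h, mgf_fun_id_gaussianReal]
  have e0 : (fun t : ℝ => Real.exp (0 * t + v * t ^ 2 / 2)) =
      fun t : ℝ => Real.exp (v * t ^ 2 / 2) := by
    funext t; rw [zero_mul, zero_add]
  rw [e0]
  have d0 : ∀ t : ℝ, HasDerivAt (fun t : ℝ => Real.exp (v * t ^ 2 / 2))
      (v * t * Real.exp (v * t ^ 2 / 2)) t := by
    intro t
    have h1 : HasDerivAt (fun t : ℝ => (v : ℝ) * t ^ 2 / 2) (v * t) t := by
      have := ((hasDerivAt_pow 2 t).const_mul (v : ℝ)).div_const 2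
      convert! this using 1
      push_cast
      ring
    have h2 := h1.exp
    convert! h2 using 1
    ring
  have dp : ∀ (p q : ℝ → ℝ), (∀ t, HasDerivAt p (q t) t) →
      deriv (fun t : ℝ => p t * Real.exp (v * t ^ 2 / 2)) =
        fun t : ℝ => (q t + p t * (v * t)) * Real.exp (v * t ^ 2 / 2) := by
    intro p q hp
    funext t
    have h1 := ((hp t).mul (d0 t)).deriv
    refine Eq.trans h1 ?_
    ring
  have e1 : deriv (fun t : ℝ => Real.exp (v * t ^ 2 / 2)) =
      fun t : ℝ => (v * t) * Real.exp (v * t ^ 2 / 2) := funext fun t => (d0 t).deriv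
  have e2 := dp (fun t => (v : ℝ) * t) (fun _ => (v : ℝ)) (fun t => by
    simpa using (hasDerivAt_id t).const_mul (v : ℝ))
  have e3 := dp (fun t => (v : ℝ) + v * t * (v * t)) (fun t => 2 * (v : ℝ) ^ 2 * t) (fun t => by
    have h1 : HasDerivAt (fun t : ℝ => (v : ℝ) * t) v t := by
      simpa using (hasDerivAt_id t).const_mul (v : ℝ)
    have h2 := (h1.mul h1).const_add (v : ℝ)
    refine h2.congr_deriv ?_
    ring)
  have e4 := dp (fun t => 2 * (v : ℝ) ^ 2 * t + ((v : ℝ) + v * t * (v * t)) * (v * t))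
    (fun t => 2 * (v : ℝ) ^ 2 + ((2 * (v : ℝ) ^ 2 * t) * (v * t) +
      ((v : ℝ) + v * t * (v * t)) * v)) (fun t => by
    have h1 : HasDerivAt (fun t : ℝ => (v : ℝ) * t) v t := by
      simpa using (hasDerivAt_id t).const_mul (v : ℝ)
    have h2 : HasDerivAt (fun t : ℝ => (v : ℝ) + v * t * (v * t)) (2 * (v : ℝ) ^ 2 * t) t := by
      have h3 := (h1.mul h1).const_add (v : ℝ)
      refine h3.congr_deriv ?_
      ring
    have h4 : HasDerivAt (fun t : ℝ => 2 * (v : ℝ) ^ 2 * t) (2 * (v : ℝ) ^ 2) t := by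
      simpa using (hasDerivAt_id t).const_mul (2 * (v : ℝ) ^ 2)
    exact h4.add (h2.mul h1))
  rw [iteratedDeriv_succ, iteratedDeriv_succ, iteratedDeriv_succ, iteratedDeriv_one, e1, e2, e3,
    e4]
  simp
  ring

/-! ### linear combinations of values -/

theorem meas_lin {k : ℕ} (w : Fin k → ℂ) (t : Fin k → ℝ) : Measurable (lin w t) := by
  unfold lin
  exact Finset.measurable_fun_sum _ fun j _ => (meas_eval (w j)).const_mul (t j)

theorem memLp_lin {μ : Measure MW} (hG : IsGaussianLaw μ) {k : ℕ} (w : Fin k → ℂ)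
    (t : Fin k → ℝ) : MemLp (lin w t) 4 μ := by
  have h := memLp_id_gaussianReal' (μ := 0) (v := (∫ f, lin w t f ^ 2 ∂μ).toNNReal) 4 (by simp)
  rw [← hG k w t] at h
  exact (memLp_map_measure_iff aestronglyMeasurable_id (meas_lin w t).aemeasurable).1 h

theorem memLp_eval {μ : Measure MW} (hG : IsGaussianLaw μ) (w : ℂ) :
    MemLp (fun f : MW => f w) 4 μ := by
  have h := memLp_lin hG (k := 1) (fun _ => w) (fun _ => 1)
  have e : (lin (fun _ : Fin 1 => w) (fun _ => 1)) = fun f : MW => f w := by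
    funext f
    simp [lin]
  rwa [e] at h

theorem int_lin4 {μ : Measure MW} (hG : IsGaussianLaw μ) {k : ℕ} (w : Fin k → ℂ)
    (t : Fin k → ℝ) : Integrable (fun f => lin w t f ^ 4) μ := by
  have h := (memLp_lin hG w t).integrable_norm_pow (p := 4) (by norm_num)
  refine h.congr (Filter.Eventually.of_forall fun f => ?_)
  show ‖lin w t f‖ ^ 4 = lin w t f ^ 4
  rw [Real.norm_eq_abs]
  exact Even.pow_abs ⟨2, rfl⟩ _

theorem fourth {μ : Measure MW} (hG : IsGaussianLaw μ) {k : ℕ} (w : Fin k → ℂ)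
    (t : Fin k → ℝ) : ∫ f, lin w t f ^ 4 ∂μ = 3 * (∫ f, lin w t f ^ 2 ∂μ) ^ 2 := by
  have h := g_m4 (∫ f, lin w t f ^ 2 ∂μ).toNNReal
  rw [← hG k w t, integral_map (meas_lin w t).aemeasurable
    (by fun_prop : Measurable fun x : ℝ => x ^ 4).aestronglyMeasurable] at h
  rw [h, Real.coe_toNNReal _ (integral_nonneg fun f => sq_nonneg _)]

theorem int_prod {μ : Measure MW} [IsProbabilityMeasure μ] (hG : IsGaussianLaw μ) (w w' : ℂ) :
    Integrable (fun f : MW => f w * f w') μ :=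
  ((memLp_eval hG w).mono_exponent (by norm_num : (2 : ℝ≥0∞) ≤ 4)).integrable_mul
    ((memLp_eval hG w').mono_exponent (by norm_num : (2 : ℝ≥0∞) ≤ 4))

theorem second {μ : Measure MW} [IsProbabilityMeasure μ] (hG : IsGaussianLaw μ) (m : ℝ)
    (ν : Measure ℝ) (h2 : ∀ w w' : ℂ, ∫ f : MW, f w * f w' ∂μ = m * cov ν (w - w')) {k : ℕ}
    (w : Fin k → ℂ) (t : Fin k → ℝ) :
    ∫ f, lin w t f ^ 2 ∂μ = ∑ i, ∑ j, t i * t j * (m * cov ν (w i - w j)) := by
  have e : ∀ f : MW, lin w t f ^ 2 = ∑ i, ∑ j, t i * t j * (f (w i) * f (w j)) := by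
    intro f
    unfold lin
    rw [sq, Finset.sum_mul_sum]
    refine Finset.sum_congr rfl fun i _ => Finset.sum_congr rfl fun j _ => ?_
    ring
  simp_rw [e]
  rw [integral_finset_sum _ fun i _ => integrable_finset_sum _ fun j _ =>
    (int_prod hG (w i) (w j)).const_mul _]
  refine Finset.sum_congr rfl fun i _ => ?_
  rw [integral_finset_sum _ fun j _ => (int_prod hG (w i) (w j)).const_mul _]
  refine Finset.sum_congr rfl fun j _ => ?_
  rw [integral_const_mul, h2]

/-! ### polarisation -/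

/-- the signs -/
def TT : Fin 8 → Fin 4 → ℝ := ![![1, 1, 1, 1], ![1, 1, 1, -1], ![1, 1, -1, 1], ![1, 1, -1, -1],
  ![1, -1, 1, 1], ![1, -1, 1, -1], ![1, -1, -1, 1], ![1, -1, -1, -1]]

/-- the products of the signs -/
def sg : Fin 8 → ℝ := ![1, -1, -1, 1, -1, 1, 1, -1]

theorem pol4 (x : Fin 4 → ℝ) : ∏ i, x i = 1 / 192 * ∑ k, sg k * (∑ j, TT k j * x j) ^ 4 := by
  rw [Fin.sum_univ_eight, Fin.prod_univ_four]
  simp only [Fin.sum_univ_four, TT, sg]
  simp
  ring

theorem pol2 (K : Fin 4 → Fin 4 → ℝ) (hK : ∀ i j, K j i = K i j) :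
    1 / 192 * ∑ k, sg k * (3 * (∑ i, ∑ j, TT k i * TT k j * K i j) ^ 2) =
      K 0 1 * K 2 3 + K 0 2 * K 1 3 + K 0 3 * K 1 2 := by
  rw [Fin.sum_univ_eight]
  simp only [Fin.sum_univ_four, TT, sg]
  rw [hK 0 1, hK 0 2, hK 0 3, hK 1 2, hK 1 3, hK 2 3]
  simp
  ring

theorem cov_neg (ν : Measure ℝ) (w : ℂ) : cov ν (-w) = cov ν w := by
  unfold cov
  refine integral_congr_ae (Filter.Eventually.of_forall fun x => ?_)
  show Real.cos ((-w).re * Real.cos x + (-w).im * Real.sin x) = _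
  rw [← Real.cos_neg]
  congr 1
  simp
  ring

theorem cov_zero (ν : Measure ℝ) [IsProbabilityMeasure ν] : cov ν 0 = 1 := by
  simp [cov]

theorem GAU : S_GAU := by
  intro μ _ hG m ν _ h2
  refine ⟨?_, memLp_eval hG, h2, ?_⟩
  · have h := h2 0 0
    rw [sub_zero, cov_zero, mul_one] at h
    rw [← h]
    exact integral_nonneg fun f => mul_self_nonneg _
  · intro w
    have e : ∀ f : MW, ∏ i, f (w i) = 1 / 192 * ∑ k, sg k * lin w (TT k) f ^ 4 := fun f =>
      pol4 fun i => f (w i)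
    simp_rw [e]
    rw [integral_const_mul, integral_finset_sum _ fun k _ => (int_lin4 hG w (TT k)).const_mul _]
    have e2 : ∀ k, ∫ f, sg k * lin w (TT k) f ^ 4 ∂μ =
        sg k * (3 * (∑ i, ∑ j, TT k i * TT k j * (m * cov ν (w i - w j))) ^ 2) := by
      intro k
      rw [integral_const_mul, fourth hG, second hG m ν h2]
    simp_rw [e2]
    rw [pol2 (fun i j => m * cov ν (w i - w j)) fun i j => by
      rw [← cov_neg, neg_sub]]
    unfold gauss
    ring

end Pool.Agent.N278.BR
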