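import Pool.Agent.N906.KG.Nt
import Pool.Agent.N906.EQ.Law

/-!
Project KG (helper906): the ideals of a point of projective space.
-/

set_option autoImplicit false
set_option linter.unusedSectionVars false

namespace Pool.Agent.N278.KG

open NumberField IsDedekindDomain Finset Pool.Agent.H691R3 Pool.Agent.W223.AK Pool.Agent.N906.KG
open Pool.Agent.N906.EQ (fN iN fN_pos iN_pos le_fN fN_le fN_zpow fN_finite log_fN_finite
  logHeight_sum norm_eq_iSup Nv_gt Nv_pos)

section

variable {K : Type} [Field K] [NumberField K] {n : ℕ}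

lemma exists_exp (v : Pr K) {z : Fin n → K} {i : Fin n} (hi : z i ≠ 0) :
    ∃ e : ℕ, fv v (z i) = fN v z * (Nv v) ^ (-(e : ℤ)) := by
  have hz : z ≠ 0 := fun h => hi (congrFun h i)
  obtain ⟨a, ha⟩ := fN_zpow v hz
  obtain ⟨c, hc⟩ := fv_zpow v hi
  have h1 := le_fN v z i
  rw [ha, hc] at h1
  have h2 : c ≤ a := (zpow_le_zpow_iff_right₀ (Nv_gt v)).1 h1
  refine ⟨(a - c).toNat, ?_⟩
  rw [ha, hc, ← zpow_add₀ (Nv_pos v).ne', Int.toNat_of_nonneg (by omega)]
  congr 1
  ring

lemma exists_max (v : Pr K) (z : Fin n → K) (hn : 1 ≤ n) : ∃ i, fv v (z i) = fN v z := by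
  have hne : (univ : Finset (Fin n)).Nonempty := ⟨⟨0, by omega⟩, mem_univ _⟩
  obtain ⟨i, -, hi⟩ := exists_max_image univ (fun i => fv v (z i)) hne
  exact ⟨i, le_antisymm (le_fN v z i) (fN_le ((fv v).nonneg _) fun j => hi j (mem_univ j))⟩

lemma iN_ge (w : InfinitePlace K) (z : Fin n → K) (i : Fin n) : w (z i) ≤ iN w z := by
  have := norm_le_pi_norm (fun i => w (z i)) i
  rwa [Real.norm_of_nonneg (apply_nonneg w _)] at this

end

theorem basn (K : Type) [Field K] [NumberField K] : S_BASN K := by
  classical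
  intro n z hn hz0
  have : Nonempty (Fin n) := ⟨⟨0, by omega⟩⟩
  have hz : z ≠ 0 := fun h => hz0 ⟨0, by omega⟩ (congrFun h _)
  have hex : ∀ (i : Fin n) (v : Pr K), ∃ e : ℕ, fv v (z i) = fN v z * (Nv v) ^ (-(e : ℤ)) :=
    fun i v => exists_exp v (hz0 i)
  choose e he using hex
  have hzero : ∀ i v, e i v = 0 ↔ fv v (z i) = fN v z := by
    intro i v
    rw [he i v]
    constructor
    · intro h
      rw [h]
      simp
    · intro h
      have h1 : (Nv v) ^ (-(e i v : ℤ)) = 1 := by
        have := mul_left_cancel₀ (fN_pos v hz).ne' (h.trans (mul_one _).symm)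
        exact this
      by_contra hne
      have h2 : (Nv v) ^ (-(e i v : ℤ)) < 1 := by
        have : (-(e i v : ℤ)) < 0 := by omega
        exact zpow_lt_one_of_neg₀ (Nv_gt v) this
      exact absurd h1 h2.ne
  have hfin : ∀ i, (Function.support (e i)).Finite := by
    intro i
    refine ((fN_finite hz).union (fv_support_finite (hz0 i))).subset fun v hv => ?_
    by_contra hcon
    simp only [Set.mem_union, Set.mem_ofPred_eq] at hcon
    push Not at hcon
    exact hv ((hzero i v).2 (hcon.2.trans hcon.1.symm))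
  set P : Fin n → Idl K := fun i => Finsupp.ofSupportFinite (e i) (hfin i) with hP
  have hPv : ∀ i v, P i v = e i v := fun i v => rfl
  have hlen : ∀ i, len (P i) ≤ Height.logHeight z := by
    intro i
    have h1 : len (P i) = ∑ᶠ v : Pr K, ((e i v : ℝ) * Real.log (Nv v)) := by
      rw [finsum_eq_sum_of_support_subset (s := (P i).support)]
      · rfl
      · intro v hv
        rw [Finset.mem_coe, Finsupp.mem_support_iff]
        intro h
        apply hv
        show ((e i v : ℝ) * Real.log (Nv v)) = 0
        rw [← hPv, h]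
        simp
    have h2 : ∀ v : Pr K, (e i v : ℝ) * Real.log (Nv v) =
        Real.log (fN v z) - Real.log (fv v (z i)) := by
      intro v
      rw [he i v, Real.log_mul (fN_pos v hz).ne' (zpow_pos (Nv_pos v) _).ne', Real.log_zpow]
      push_cast
      ring
    rw [h1, finsum_congr h2, finsum_sub_distrib (log_fN_finite hz) (log_fv_support_finite (hz0 i))]
    have h3 := log_product_formula (K := K) (hz0 i)
    have h4 : ∑ w : InfinitePlace K, (w.mult : ℝ) * Real.log (w (z i)) ≤
        ∑ w : InfinitePlace K, (w.mult : ℝ) * Real.log (iN w z) := by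
      refine Finset.sum_le_sum fun w _ => ?_
      refine mul_le_mul_of_nonneg_left ?_ (Nat.cast_nonneg _)
      exact Real.log_le_log ((w.pos_iff).2 (hz0 i)) (iN_ge w z i)
    rw [logHeight_sum hz]
    linarith
  have hmax : ∀ v, ∃ i, P i v = 0 := by
    intro v
    obtain ⟨i, hi⟩ := exists_max v z hn
    exact ⟨i, (hzero i v).2 hi⟩
  refine ⟨P, ?_, ?_, hmax, ?_⟩
  · intro i v
    rw [hPv, he i v]
    congr 1
    unfold fN
    rw [norm_eq_iSup _ fun i => (fv v).nonneg _]
  · unfold tl
    calc ∑ i, len (P i) ≤ ∑ _i : Fin n, Height.logHeight z :=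
          Finset.sum_le_sum fun i _ => hlen i
      _ = n * Height.logHeight z := by
          rw [Finset.sum_const, Finset.card_univ, Fintype.card_fin, nsmul_eq_mul]
  · intro v
    unfold sp
    rw [mem_biUnion]
    constructor
    · rintro ⟨i, -, hi⟩
      rw [Finsupp.mem_support_iff, hPv] at hi
      obtain ⟨j, hj⟩ := hmax v
      rw [hPv] at hj
      refine ⟨i, j, fun h => hi ((hzero i v).2 (h.trans ((hzero j v).1 hj)))⟩
    · rintro ⟨i, j, hij⟩
      by_contra hcon
      push Not at hcon
      have h1 : ∀ i, fv v (z i) = fN v z := by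
        intro i
        have := hcon i (mem_univ _)
        rw [Finsupp.mem_support_iff, not_not, hPv] at this
        exact (hzero i v).1 this
      exact hij ((h1 i).trans (h1 j).symm)

end Pool.Agent.N278.KG
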