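import Pool.Agent.N804.PV.Def

set_option autoImplicit false

/-!
# PV2: the smoothing of the prime error is harmless
-/

namespace Pool.Agent.N278.PV

open Filter Topology Set MeasureTheory
open Pool.Agent.N804.PV

/-! ### elementary bounds -/

theorem exp_sub_one (x : ℝ) : |Real.exp x - 1| ≤ |x| * Real.exp |x| := by
  rcases le_total 0 x with h | h
  · rw [abs_of_nonneg h, abs_of_nonneg (by linarith [Real.one_le_exp h])]
    have h1 := Real.add_one_le_exp (-x)
    have h2 := Real.exp_pos x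
    have h3 : Real.exp x * Real.exp (-x) = 1 := by rw [← Real.exp_add]; simp
    nlinarith
  · have h1 : Real.exp x ≤ 1 := Real.exp_le_one_iff.2 h
    rw [abs_of_nonpos h, abs_of_nonpos (by linarith)]
    have h2 := Real.add_one_le_exp x
    have h3 : 1 ≤ Real.exp (-x) := Real.one_le_exp (by linarith)
    nlinarith

/-- the constant of Chebyshev -/
noncomputable def C0 : ℝ := Real.log 4 + 4

theorem C0_pos : 0 < C0 := by
  have : 0 < Real.log 4 := Real.log_pos (by norm_num)
  unfold C0
  linarith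

/-- `psi (lam e^y)` -/
noncomputable def F (lam y : ℝ) : ℝ := Chebyshev.psi (Real.exp y * lam)

theorem F_nonneg (lam y : ℝ) : 0 ≤ F lam y := Chebyshev.psi_nonneg _

theorem F_mono {lam : ℝ} (h : 0 ≤ lam) : Monotone (F lam) := fun _ _ hxy =>
  Chebyshev.psi_mono (mul_le_mul_of_nonneg_right (Real.exp_le_exp.2 hxy) h)

theorem F_le {lam : ℝ} (h : 0 ≤ lam) (h2 : lam ≤ 2) (y : ℝ) : F lam y ≤ 2 * C0 * Real.exp y := by
  have h0 := Real.exp_pos y
  have h1 := Chebyshev.psi_le_const_mul_self (x := Real.exp y * lam) (by positivity)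
  have h3 := C0_pos
  unfold F
  refine h1.trans ?_
  change C0 * (Real.exp y * lam) ≤ _
  nlinarith [mul_pos h3 h0]

theorem DT_eq (T y : ℝ) : DT T y = Real.exp (-(y / 2)) * F (1 + 1 / T) y -
    Real.exp (-(y / 2)) * F 1 y - Real.exp (y / 2) / T := by
  unfold DT F
  have : Real.exp (y / 2) = Real.exp (-(y / 2)) * Real.exp y := by
    rw [← Real.exp_add]
    congr 1
    ring
  rw [this, mul_one]
  ring

theorem meas_psi : Measurable Chebyshev.psi := Chebyshev.psi_mono.measurable

theorem meas_DT (T : ℝ) : Measurable (DT T) := by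
  unfold DT
  have h1 : Measurable fun y : ℝ => Chebyshev.psi (Real.exp y * (1 + 1 / T)) :=
    meas_psi.comp (by fun_prop)
  have h2 : Measurable fun y : ℝ => Chebyshev.psi (Real.exp y) := meas_psi.comp (by fun_prop)
  fun_prop

/-- the constant in the trivial bound -/
noncomputable def C1 : ℝ := 2 * C0 + 1

theorem C1_pos : 0 < C1 := by
  have := C0_pos
  unfold C1
  linarith

theorem DT_bound {T : ℝ} (hT : 1 ≤ T) (y : ℝ) : |DT T y| ≤ C1 * Real.exp (y / 2) := by
  have hT0 : 0 < T := by linarith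
  have h1T : 1 / T ≤ 1 := by rw [div_le_one hT0]; exact hT
  have h1T0 : 0 ≤ 1 / T := by positivity
  have a1 := F_le (lam := 1 + 1 / T) (by linarith) (by linarith) y
  have a2 := F_nonneg 1 y
  have a3 : F 1 y ≤ F (1 + 1 / T) y := by
    unfold F
    exact Chebyshev.psi_mono (mul_le_mul_of_nonneg_left (by linarith) (Real.exp_pos y).le)
  have e1 : Real.exp (y / 2) = Real.exp (-(y / 2)) * Real.exp y := by
    rw [← Real.exp_add]
    congr 1
    ring
  have a4 : Real.exp (y / 2) / T ≤ Real.exp (y / 2) :=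
    div_le_self (Real.exp_pos _).le hT
  have a5 : 0 ≤ Real.exp (y / 2) / T := by positivity
  have a6 : Real.exp (-(y / 2)) * (F (1 + 1 / T) y - F 1 y) ≤ 2 * C0 * Real.exp (y / 2) := by
    rw [e1]
    have := Real.exp_pos (-(y / 2))
    calc Real.exp (-(y / 2)) * (F (1 + 1 / T) y - F 1 y) ≤
        Real.exp (-(y / 2)) * (2 * C0 * Real.exp y) :=
          mul_le_mul_of_nonneg_left (by linarith) this.le
      _ = _ := by ring
  have a7 : 0 ≤ Real.exp (-(y / 2)) * (F (1 + 1 / T) y - F 1 y) :=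
    mul_nonneg (Real.exp_pos _).le (by linarith)
  rw [DT_eq, ← mul_sub, abs_le]
  unfold C1
  have hC := C0_pos
  have hE := Real.exp_pos (y / 2)
  constructor
  · nlinarith [mul_pos hC hE]
  · nlinarith

/-! ### translations of monotone functions -/

theorem mono_shift {G : ℝ → ℝ} (hG : Monotone G) (h0 : ∀ y, 0 ≤ G y) {C : ℝ}
    (hC : ∀ y, G y ≤ C * Real.exp y) {R : ℝ} (hR : 0 ≤ R) (v : ℝ) :
    ∫ y in (0:ℝ)..R, |G (y + v) - G y| ≤ |v| * (C * Real.exp (R + |v|)) := by
  have hi : ∀ a b : ℝ, IntervalIntegrable G volume a b := fun a b => hG.intervalIntegrable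
  have hi' : ∀ a b : ℝ, IntervalIntegrable (fun y => G (y + v)) volume a b := fun a b =>
    (hG.comp (fun x y h => by simpa using h : Monotone fun y : ℝ => y + v)).intervalIntegrable
  have hC0 : 0 ≤ C := by
    have h1 := (h0 0).trans (hC 0)
    rw [Real.exp_zero, mul_one] at h1
    exact h1
  have e1 : ∫ y in (0:ℝ)..R, G (y + v) = ∫ y in v..(R + v), G y := by
    rw [intervalIntegral.integral_comp_add_right]
    simp
  have e2 : (∫ y in (0:ℝ)..v, G y) + ∫ y in v..(R + v), G y = ∫ y in (0:ℝ)..(R + v), G y :=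
    intervalIntegral.integral_add_adjacent_intervals (hi _ _) (hi _ _)
  have e3 : (∫ y in (0:ℝ)..R, G y) + ∫ y in R..(R + v), G y = ∫ y in (0:ℝ)..(R + v), G y :=
    intervalIntegral.integral_add_adjacent_intervals (hi _ _) (hi _ _)
  rcases le_total 0 v with hv | hv
  · have e4 : ∫ y in (0:ℝ)..R, |G (y + v) - G y| = ∫ y in (0:ℝ)..R, (G (y + v) - G y) := by
      refine intervalIntegral.integral_congr fun y _ => ?_
      exact abs_of_nonneg (sub_nonneg.2 (hG (by linarith)))
    rw [e4, intervalIntegral.integral_sub (hi' _ _) (hi _ _), e1, abs_of_nonneg hv]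
    have h1 : 0 ≤ ∫ y in (0:ℝ)..v, G y := intervalIntegral.integral_nonneg hv fun y _ => h0 y
    have h2 : ∫ y in R..(R + v), G y ≤ ∫ y in R..(R + v), C * Real.exp (R + v) := by
      refine intervalIntegral.integral_mono_on (by linarith) (hi _ _)
        intervalIntegrable_const fun y hy => ?_
      exact (hC y).trans (mul_le_mul_of_nonneg_left (Real.exp_le_exp.2 hy.2) hC0)
    rw [intervalIntegral.integral_const, smul_eq_mul, add_sub_cancel_left] at h2
    linarith
  · have e4 : ∫ y in (0:ℝ)..R, |G (y + v) - G y| = ∫ y in (0:ℝ)..R, (G y - G (y + v)) := by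
      refine intervalIntegral.integral_congr fun y _ => ?_
      show |G (y + v) - G y| = G y - G (y + v)
      rw [abs_sub_comm]
      exact abs_of_nonneg (sub_nonneg.2 (hG (by linarith)))
    rw [e4, intervalIntegral.integral_sub (hi _ _) (hi' _ _), e1, abs_of_nonpos hv]
    have h1 : 0 ≤ ∫ y in v..(0:ℝ), G y := intervalIntegral.integral_nonneg hv fun y _ => h0 y
    have h1' : ∫ y in v..(0:ℝ), G y = -∫ y in (0:ℝ)..v, G y := intervalIntegral.integral_symm _ _
    have h3 : ∫ y in (R + v)..R, G y = -∫ y in R..(R + v), G y := intervalIntegral.integral_symm _ _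
    have h2 : ∫ y in (R + v)..R, G y ≤ ∫ y in (R + v)..R, C * Real.exp (R + -v) := by
      refine intervalIntegral.integral_mono_on (by linarith) (hi _ _)
        intervalIntegrable_const fun y hy => ?_
      exact (hC y).trans (mul_le_mul_of_nonneg_left (Real.exp_le_exp.2 (by linarith [hy.2])) hC0)
    rw [intervalIntegral.integral_const, smul_eq_mul] at h2
    have h4 : R - (R + v) = -v := by ring
    rw [h4] at h2
    linarith

theorem E_shift {lam : ℝ} (hl : 0 ≤ lam) (hl2 : lam ≤ 2) {R : ℝ} (hR : 0 ≤ R) (v : ℝ) :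
    ∫ y in (0:ℝ)..R, |Real.exp (-((y + v) / 2)) * F lam (y + v) - Real.exp (-(y / 2)) * F lam y| ≤
      6 * C0 * (|v| * Real.exp (2 * |v|)) * Real.exp (2 * R) := by
  have hG := F_mono hl
  have hC := C0_pos
  have hav := abs_nonneg v
  have hb := mono_shift hG (F_nonneg lam) (F_le hl hl2) hR v
  have hi1 : IntervalIntegrable (fun y => |F lam (y + v) - F lam y|) volume 0 R := by
    refine IntervalIntegrable.abs (IntervalIntegrable.sub ?_ hG.intervalIntegrable)
    exact (hG.comp (fun x y h => by simpa using h : Monotone fun y : ℝ => y + v)).intervalIntegrable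
  have hm : Measurable (F lam) := hG.measurable
  have hpt : ∀ y ∈ Icc (0:ℝ) R,
      |Real.exp (-((y + v) / 2)) * F lam (y + v) - Real.exp (-(y / 2)) * F lam y| ≤
      Real.exp (|v| / 2) * |F lam (y + v) - F lam y| + C0 * (|v| * Real.exp (|v| / 2)) *
        Real.exp (R / 2) := by
    intro y hy
    have e1 : Real.exp (-((y + v) / 2)) * F lam (y + v) - Real.exp (-(y / 2)) * F lam y =
        Real.exp (-((y + v) / 2)) * (F lam (y + v) - F lam y) +
        Real.exp (-(y / 2)) * F lam y * (Real.exp (-v / 2) - 1) := by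
      have : Real.exp (-((y + v) / 2)) = Real.exp (-(y / 2)) * Real.exp (-v / 2) := by
        rw [← Real.exp_add]
        congr 1
        ring
      rw [this]
      ring
    rw [e1]
    refine (abs_add_le _ _).trans (add_le_add ?_ ?_)
    · rw [abs_mul, abs_of_pos (Real.exp_pos _)]
      refine mul_le_mul_of_nonneg_right (Real.exp_le_exp.2 ?_) (abs_nonneg _)
      have := neg_abs_le v
      linarith [hy.1]
    · rw [abs_mul, abs_of_nonneg (mul_nonneg (Real.exp_pos _).le (F_nonneg _ _))]
      have h1 : Real.exp (-(y / 2)) * F lam y ≤ 2 * C0 * Real.exp (R / 2) := by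
        calc Real.exp (-(y / 2)) * F lam y ≤ Real.exp (-(y / 2)) * (2 * C0 * Real.exp y) :=
              mul_le_mul_of_nonneg_left (F_le hl hl2 y) (Real.exp_pos _).le
          _ = 2 * C0 * Real.exp (y / 2) := by
              have : Real.exp (y / 2) = Real.exp (-(y / 2)) * Real.exp y := by
                rw [← Real.exp_add]
                congr 1
                ring
              rw [this]
              ring
          _ ≤ 2 * C0 * Real.exp (R / 2) :=
              mul_le_mul_of_nonneg_left (Real.exp_le_exp.2 (by linarith [hy.2])) (by positivity)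
      have h2 := exp_sub_one (-v / 2)
      have h3 : |-v / 2| = |v| / 2 := by rw [abs_div, abs_neg, abs_two]
      rw [h3] at h2
      calc _ ≤ (2 * C0 * Real.exp (R / 2)) * (|v| / 2 * Real.exp (|v| / 2)) :=
            mul_le_mul h1 h2 (abs_nonneg _) (by positivity)
        _ = _ := by ring
  have hint : IntervalIntegrable (fun y => Real.exp (|v| / 2) * |F lam (y + v) - F lam y| +
      C0 * (|v| * Real.exp (|v| / 2)) * Real.exp (R / 2)) volume 0 R :=
    (hi1.const_mul _).add intervalIntegrable_const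
  have hint0 : IntervalIntegrable (fun y => |Real.exp (-((y + v) / 2)) * F lam (y + v) -
      Real.exp (-(y / 2)) * F lam y|) volume 0 R := by
    rw [intervalIntegrable_iff_integrableOn_Icc_of_le hR] at hint ⊢
    refine Integrable.mono' hint ?_ ?_
    · have h1 : Measurable fun y => F lam (y + v) := hm.comp (by fun_prop)
      have : Measurable (fun y => |Real.exp (-((y + v) / 2)) * F lam (y + v) -
        Real.exp (-(y / 2)) * F lam y|) := by fun_prop
      exact this.aestronglyMeasurable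
    · refine (ae_restrict_mem measurableSet_Icc).mono fun y hy => ?_
      rw [Real.norm_eq_abs, abs_abs]
      exact hpt y hy
  have h1 := intervalIntegral.integral_mono_on hR hint0 hint hpt
  refine h1.trans ?_
  rw [intervalIntegral.integral_add (hi1.const_mul _) intervalIntegrable_const,
    intervalIntegral.integral_const_mul, intervalIntegral.integral_const, smul_eq_mul, sub_zero]
  have b1 : Real.exp (|v| / 2) * ∫ y in (0:ℝ)..R, |F lam (y + v) - F lam y| ≤
      2 * C0 * (|v| * Real.exp (2 * |v|)) * Real.exp (2 * R) := by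
    calc _ ≤ Real.exp (|v| / 2) * (|v| * (2 * C0 * Real.exp (R + |v|))) :=
          mul_le_mul_of_nonneg_left hb (Real.exp_pos _).le
      _ = 2 * C0 * |v| * Real.exp (|v| / 2 + (R + |v|)) := by
          rw [Real.exp_add (|v| / 2)]
          ring
      _ ≤ 2 * C0 * |v| * Real.exp (2 * |v| + 2 * R) :=
          mul_le_mul_of_nonneg_left (Real.exp_le_exp.2 (by linarith)) (by positivity)
      _ = _ := by
          rw [Real.exp_add]
          ring
  have b2 : R * (C0 * (|v| * Real.exp (|v| / 2)) * Real.exp (R / 2)) ≤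
      C0 * (|v| * Real.exp (2 * |v|)) * Real.exp (2 * R) := by
    have h2 : R ≤ Real.exp R := by linarith [Real.add_one_le_exp R]
    calc R * (C0 * (|v| * Real.exp (|v| / 2)) * Real.exp (R / 2)) ≤
        Real.exp R * (C0 * (|v| * Real.exp (|v| / 2)) * Real.exp (R / 2)) :=
          mul_le_mul_of_nonneg_right h2 (by positivity)
      _ = C0 * |v| * Real.exp (R + |v| / 2 + R / 2) := by
          rw [Real.exp_add, Real.exp_add]
          ring
      _ ≤ C0 * |v| * Real.exp (2 * |v| + 2 * R) :=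
          mul_le_mul_of_nonneg_left (Real.exp_le_exp.2 (by linarith)) (by positivity)
      _ = _ := by
          rw [Real.exp_add]
          ring
  have b3 : 0 ≤ C0 * (|v| * Real.exp (2 * |v|)) * Real.exp (2 * R) := by positivity
  linarith

/-- the constant in the shift estimate -/
noncomputable def C3 : ℝ := 12 * C0 + 1

theorem C3_pos : 0 < C3 := by
  have := C0_pos
  unfold C3
  linarith

theorem ii_of_bound {f : ℝ → ℝ} (hf : Measurable f) {R C : ℝ} (h : ∀ y ∈ Icc (0:ℝ) R, |f y| ≤ C)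
    (hR : 0 ≤ R) : IntervalIntegrable f volume 0 R := by
  rw [intervalIntegrable_iff_integrableOn_Icc_of_le hR]
  refine Integrable.mono' (g := fun _ => C) (integrable_const _) hf.aestronglyMeasurable ?_
  refine (ae_restrict_mem measurableSet_Icc).mono fun y hy => ?_
  rw [Real.norm_eq_abs]
  exact h y hy

theorem DT_ii {T : ℝ} (hT : 1 ≤ T) (v : ℝ) {R : ℝ} (hR : 0 ≤ R) :
    IntervalIntegrable (fun y => |DT T (y + v) - DT T y|) volume 0 R := by
  have hm := meas_DT T
  have h1 : Measurable fun y => DT T (y + v) := hm.comp (by fun_prop)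
  refine ii_of_bound (C := C1 * Real.exp ((R + |v|) / 2) + C1 * Real.exp (R / 2)) (by fun_prop)
    (fun y hy => ?_) hR
  have hC := C1_pos
  rw [abs_abs]
  refine (abs_sub _ _).trans (add_le_add ?_ ?_)
  · refine (DT_bound hT _).trans (mul_le_mul_of_nonneg_left (Real.exp_le_exp.2 ?_) hC.le)
    have := le_abs_self v
    linarith [hy.2]
  · refine (DT_bound hT _).trans (mul_le_mul_of_nonneg_left (Real.exp_le_exp.2 ?_) hC.le)
    linarith [hy.2]

theorem DT_shift {T : ℝ} (hT : 1 ≤ T) {R : ℝ} (hR : 0 ≤ R) (v : ℝ) :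
    ∫ y in (0:ℝ)..R, |DT T (y + v) - DT T y| ≤
      C3 * (|v| * Real.exp (2 * |v|)) * Real.exp (2 * R) := by
  have hT0 : 0 < T := by linarith
  have h1T : 1 / T ≤ 1 := by rw [div_le_one hT0]; exact hT
  have h1T0 : 0 ≤ 1 / T := by positivity
  have hav := abs_nonneg v
  have hl : 0 ≤ 1 + 1 / T := by linarith
  have hl2 : 1 + 1 / T ≤ 2 := by linarith
  have s1 := E_shift hl hl2 hR v
  have s2 := E_shift (lam := 1) (by norm_num) (by norm_num) hR v
  set f1 : ℝ → ℝ := fun y => |Real.exp (-((y + v) / 2)) * F (1 + 1 / T) (y + v) -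
    Real.exp (-(y / 2)) * F (1 + 1 / T) y| with hf1
  set f2 : ℝ → ℝ := fun y => |Real.exp (-((y + v) / 2)) * F 1 (y + v) -
    Real.exp (-(y / 2)) * F 1 y| with hf2
  have key : ∀ lam : ℝ, 0 ≤ lam → lam ≤ 2 → IntervalIntegrable (fun y =>
      |Real.exp (-((y + v) / 2)) * F lam (y + v) - Real.exp (-(y / 2)) * F lam y|) volume 0 R := by
    intro lam h0 h2
    have hm : Measurable (F lam) := (F_mono h0).measurable
    have h1 : Measurable fun y => F lam (y + v) := hm.comp (by fun_prop)
    have hbd : ∀ z : ℝ, |Real.exp (-(z / 2)) * F lam z| ≤ 2 * C0 * Real.exp (z / 2) := by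
      intro z
      rw [abs_of_nonneg (mul_nonneg (Real.exp_pos _).le (F_nonneg _ _))]
      calc Real.exp (-(z / 2)) * F lam z ≤ Real.exp (-(z / 2)) * (2 * C0 * Real.exp z) :=
            mul_le_mul_of_nonneg_left (F_le h0 h2 z) (Real.exp_pos _).le
        _ = 2 * C0 * Real.exp (z / 2) := by
            have : Real.exp (z / 2) = Real.exp (-(z / 2)) * Real.exp z := by
              rw [← Real.exp_add]
              congr 1
              ring
            rw [this]
            ring
    have hC := C0_pos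
    refine ii_of_bound (C := 2 * C0 * Real.exp ((R + |v|) / 2) + 2 * C0 * Real.exp (R / 2))
      (by fun_prop) (fun y hy => ?_) hR
    rw [abs_abs]
    refine (abs_sub _ _).trans (add_le_add ?_ ?_)
    · refine (hbd _).trans (mul_le_mul_of_nonneg_left (Real.exp_le_exp.2 ?_) (by positivity))
      have := le_abs_self v
      linarith [hy.2]
    · refine (hbd _).trans (mul_le_mul_of_nonneg_left (Real.exp_le_exp.2 ?_) (by positivity))
      linarith [hy.2]
  have i1 : IntervalIntegrable f1 volume 0 R := key _ hl hl2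
  have i2 : IntervalIntegrable f2 volume 0 R := key 1 (by norm_num) (by norm_num)
  have hpt : ∀ y ∈ Icc (0:ℝ) R, |DT T (y + v) - DT T y| ≤
      f1 y + f2 y + Real.exp (R / 2) * (|v| / 2 * Real.exp (|v| / 2)) := by
    intro y hy
    have e1 : DT T (y + v) - DT T y =
        (Real.exp (-((y + v) / 2)) * F (1 + 1 / T) (y + v) -
          Real.exp (-(y / 2)) * F (1 + 1 / T) y) -
        (Real.exp (-((y + v) / 2)) * F 1 (y + v) - Real.exp (-(y / 2)) * F 1 y) -
        Real.exp (y / 2) * (Real.exp (v / 2) - 1) / T := by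
      rw [DT_eq, DT_eq]
      have : Real.exp ((y + v) / 2) = Real.exp (y / 2) * Real.exp (v / 2) := by
        rw [← Real.exp_add]
        congr 1
        ring
      rw [this]
      ring
    rw [e1]
    refine (abs_sub _ _).trans (add_le_add ((abs_sub _ _).trans (le_refl _)) ?_)
    rw [abs_div, abs_of_pos hT0, abs_mul, abs_of_pos (Real.exp_pos _)]
    have h2 := exp_sub_one (v / 2)
    rw [abs_div, abs_two] at h2
    have h3 : Real.exp (y / 2) ≤ Real.exp (R / 2) := Real.exp_le_exp.2 (by linarith [hy.2])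
    refine (div_le_self (by positivity) hT).trans ?_
    exact mul_le_mul h3 h2 (abs_nonneg _) (Real.exp_pos _).le
  have h1 := intervalIntegral.integral_mono_on hR (DT_ii hT v hR)
    ((i1.add i2).add intervalIntegrable_const) hpt
  refine h1.trans ?_
  rw [intervalIntegral.integral_add (i1.add i2) intervalIntegrable_const,
    intervalIntegral.integral_add i1 i2, intervalIntegral.integral_const, smul_eq_mul, sub_zero]
  have b2 : R * (Real.exp (R / 2) * (|v| / 2 * Real.exp (|v| / 2))) ≤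
      (|v| * Real.exp (2 * |v|)) * Real.exp (2 * R) := by
    have h2 : R ≤ Real.exp R := by linarith [Real.add_one_le_exp R]
    calc R * (Real.exp (R / 2) * (|v| / 2 * Real.exp (|v| / 2))) ≤
        Real.exp R * (Real.exp (R / 2) * (|v| / 2 * Real.exp (|v| / 2))) :=
          mul_le_mul_of_nonneg_right h2 (by positivity)
      _ = |v| / 2 * Real.exp (R + R / 2 + |v| / 2) := by
          rw [Real.exp_add, Real.exp_add]
          ring
      _ ≤ |v| * Real.exp (2 * |v| + 2 * R) :=
          mul_le_mul (by linarith) (Real.exp_le_exp.2 (by linarith)) (Real.exp_pos _).le hav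
      _ = _ := by
          rw [Real.exp_add]
          ring
  have s1' : ∫ y in (0:ℝ)..R, f1 y ≤ 6 * C0 * (|v| * Real.exp (2 * |v|)) * Real.exp (2 * R) := s1
  have s2' : ∫ y in (0:ℝ)..R, f2 y ≤ 6 * C0 * (|v| * Real.exp (2 * |v|)) * Real.exp (2 * R) := s2
  unfold C3
  linarith

/-! ### the Gaussian density -/

theorem gs_pos {ε : ℝ} (hε : 0 < ε) (v : ℝ) : 0 < gs ε v := by
  unfold gs
  positivity

theorem gs_cont (ε : ℝ) : Continuous (gs ε) := by
  unfold gs
  fun_prop

theorem gs_eq (ε v : ℝ) : gs ε v =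
    (ε * Real.sqrt (2 * Real.pi))⁻¹ * Real.exp (-(1 / (2 * ε ^ 2)) * v ^ 2) := by
  unfold gs
  rw [div_eq_mul_inv, mul_comm]
  congr 2
  ring

theorem gs_int {ε : ℝ} (hε : 0 < ε) : Integrable (gs ε) := by
  have h := (integrable_exp_neg_mul_sq (b := 1 / (2 * ε ^ 2)) (by positivity)).const_mul
    (ε * Real.sqrt (2 * Real.pi))⁻¹
  refine h.congr (Eventually.of_forall fun v => ?_)
  exact (gs_eq ε v).symm

theorem gs_one {ε : ℝ} (hε : 0 < ε) : ∫ v, gs ε v = 1 := by
  have e : (fun v => gs ε v) = fun v =>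
      (ε * Real.sqrt (2 * Real.pi))⁻¹ * Real.exp (-(1 / (2 * ε ^ 2)) * v ^ 2) :=
    funext fun v => gs_eq ε v
  rw [e, integral_const_mul, integral_gaussian]
  have h1 : Real.pi / (1 / (2 * ε ^ 2)) = ε ^ 2 * (2 * Real.pi) := by
    field_simp
  have h2 : Real.sqrt (ε ^ 2 * (2 * Real.pi)) = ε * Real.sqrt (2 * Real.pi) := by
    rw [Real.sqrt_mul (sq_nonneg ε) (2 * Real.pi), Real.sqrt_sq hε.le]
  rw [h1, h2]
  have : 0 < ε * Real.sqrt (2 * Real.pi) := by positivity
  exact inv_mul_cancel₀ this.ne'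

/-- the dominating Gaussian -/
noncomputable def dg (ε v : ℝ) : ℝ := Real.exp (-(1 / (4 * ε ^ 2)) * v ^ 2)

theorem dg_int {ε : ℝ} (hε : 0 < ε) : Integrable (dg ε) :=
  integrable_exp_neg_mul_sq (b := 1 / (4 * ε ^ 2)) (by positivity)

theorem dg_val {ε : ℝ} (hε : 0 < ε) : ∫ v, dg ε v = 2 * ε * Real.sqrt Real.pi := by
  unfold dg
  rw [integral_gaussian]
  have h1 : Real.pi / (1 / (4 * ε ^ 2)) = (2 * ε) ^ 2 * Real.pi := by
    field_simp
    ring
  rw [h1, Real.sqrt_mul (by positivity), Real.sqrt_sq (by positivity)]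

theorem gs_bd1 {ε : ℝ} (hε : 0 < ε) (hε1 : ε ≤ 1) (v : ℝ) :
    gs ε v * Real.exp (2 * |v|) ≤
      (ε * Real.sqrt (2 * Real.pi))⁻¹ * Real.exp 8 * dg ε v := by
  rw [gs_eq]
  unfold dg
  rw [mul_assoc, mul_assoc, ← Real.exp_add, ← Real.exp_add]
  refine mul_le_mul_of_nonneg_left (Real.exp_le_exp.2 ?_) (by positivity)
  set x : ℝ := |v| / ε with hx
  have hx0 : 0 ≤ x := by positivity
  have h1 : |v| ≤ x := by
    rw [hx, le_div_iff₀ hε]
    nlinarith [abs_nonneg v]
  have h2 : v ^ 2 = x ^ 2 * ε ^ 2 := by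
    rw [hx, div_pow, sq_abs]
    field_simp
  have h3 : -(1 / (2 * ε ^ 2)) * v ^ 2 = -x ^ 2 / 2 := by
    rw [h2]
    field_simp
  have h4 : -(1 / (4 * ε ^ 2)) * v ^ 2 = -x ^ 2 / 4 := by
    rw [h2]
    field_simp
  rw [h3, h4]
  nlinarith [sq_nonneg (x - 4)]

theorem gs_bd2 {ε : ℝ} (hε : 0 < ε) (hε1 : ε ≤ 1) (v : ℝ) :
    gs ε v * (|v| * Real.exp (2 * |v|)) ≤
      (Real.sqrt (2 * Real.pi))⁻¹ * Real.exp 16 * dg ε v := by
  rw [gs_eq]
  unfold dg
  set x : ℝ := |v| / ε with hx
  have hx0 : 0 ≤ x := by positivity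
  have hv : |v| = ε * x := by rw [hx]; field_simp
  have h1 : |v| ≤ x := by
    rw [hx, le_div_iff₀ hε]
    nlinarith [abs_nonneg v]
  have h2 : v ^ 2 = x ^ 2 * ε ^ 2 := by
    rw [hx, div_pow, sq_abs]
    field_simp
  have h3 : -(1 / (2 * ε ^ 2)) * v ^ 2 = -x ^ 2 / 2 := by
    rw [h2]
    field_simp
  have h4 : -(1 / (4 * ε ^ 2)) * v ^ 2 = -x ^ 2 / 4 := by
    rw [h2]
    field_simp
  rw [h3, h4]
  have h5 : x ≤ Real.exp x := by linarith [Real.add_one_le_exp x]
  have h6 : |v| * Real.exp (2 * |v|) ≤ ε * (Real.exp x * Real.exp (2 * x)) := by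
    have h7 : Real.exp (2 * |v|) ≤ Real.exp (2 * x) := Real.exp_le_exp.2 (by linarith)
    calc |v| * Real.exp (2 * |v|) = ε * (x * Real.exp (2 * |v|)) := by rw [hv]; ring
      _ ≤ ε * (Real.exp x * Real.exp (2 * x)) :=
          mul_le_mul_of_nonneg_left (mul_le_mul h5 h7 (Real.exp_pos _).le (Real.exp_pos _).le) hε.le
  calc (ε * Real.sqrt (2 * Real.pi))⁻¹ * Real.exp (-x ^ 2 / 2) * (|v| * Real.exp (2 * |v|)) ≤
      (ε * Real.sqrt (2 * Real.pi))⁻¹ * Real.exp (-x ^ 2 / 2) *
        (ε * (Real.exp x * Real.exp (2 * x))) := mul_le_mul_of_nonneg_left h6 (by positivity)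
    _ = (Real.sqrt (2 * Real.pi))⁻¹ * Real.exp (-x ^ 2 / 2 + x + 2 * x) := by
        rw [Real.exp_add, Real.exp_add, mul_inv]
        field_simp
    _ ≤ (Real.sqrt (2 * Real.pi))⁻¹ * Real.exp (16 + -x ^ 2 / 4) := by
        refine mul_le_mul_of_nonneg_left (Real.exp_le_exp.2 ?_) (by positivity)
        nlinarith [sq_nonneg (x - 6)]
    _ = _ := by
        rw [Real.exp_add]
        ring

theorem gsI1 {ε : ℝ} (hε : 0 < ε) (hε1 : ε ≤ 1) :
    Integrable (fun v => gs ε v * Real.exp (2 * |v|)) ∧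
      ∫ v, gs ε v * Real.exp (2 * |v|) ≤ 2 * Real.exp 8 := by
  have hd := (dg_int hε).const_mul ((ε * Real.sqrt (2 * Real.pi))⁻¹ * Real.exp 8)
  have hi : Integrable (fun v => gs ε v * Real.exp (2 * |v|)) := by
    refine hd.mono' ?_ (Eventually.of_forall fun v => ?_)
    · exact ((gs_cont ε).mul (by fun_prop)).aestronglyMeasurable
    · rw [Real.norm_eq_abs, abs_of_pos (mul_pos (gs_pos hε v) (Real.exp_pos _))]
      exact gs_bd1 hε hε1 v
  refine ⟨hi, (integral_mono hi hd fun v => gs_bd1 hε hε1 v).trans ?_⟩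
  rw [integral_const_mul, dg_val hε]
  have h1 : Real.sqrt Real.pi ≤ Real.sqrt (2 * Real.pi) := by
    apply Real.sqrt_le_sqrt
    linarith [Real.pi_pos]
  have h2 : 0 < Real.sqrt (2 * Real.pi) := by positivity
  have h3 := Real.exp_pos 8
  rw [mul_inv]
  have e : ε⁻¹ * (Real.sqrt (2 * Real.pi))⁻¹ * Real.exp 8 * (2 * ε * Real.sqrt Real.pi) =
      2 * Real.exp 8 * (Real.sqrt Real.pi / Real.sqrt (2 * Real.pi)) := by
    field_simp
  rw [e]
  have h4 : Real.sqrt Real.pi / Real.sqrt (2 * Real.pi) ≤ 1 := by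
    rw [div_le_one h2]
    exact h1
  nlinarith

theorem gsI2 {ε : ℝ} (hε : 0 < ε) (hε1 : ε ≤ 1) :
    Integrable (fun v => gs ε v * (|v| * Real.exp (2 * |v|))) ∧
      ∫ v, gs ε v * (|v| * Real.exp (2 * |v|)) ≤ 2 * Real.exp 16 * ε := by
  have hd := (dg_int hε).const_mul ((Real.sqrt (2 * Real.pi))⁻¹ * Real.exp 16)
  have hi : Integrable (fun v => gs ε v * (|v| * Real.exp (2 * |v|))) := by
    refine hd.mono' ?_ (Eventually.of_forall fun v => ?_)
    · exact ((gs_cont ε).mul (by fun_prop)).aestronglyMeasurable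
    · have : 0 ≤ |v| * Real.exp (2 * |v|) := by positivity
      rw [Real.norm_eq_abs, abs_of_nonneg (mul_nonneg (gs_pos hε v).le this)]
      exact gs_bd2 hε hε1 v
  refine ⟨hi, (integral_mono hi hd fun v => gs_bd2 hε hε1 v).trans ?_⟩
  rw [integral_const_mul, dg_val hε]
  have h1 : Real.sqrt Real.pi ≤ Real.sqrt (2 * Real.pi) := by
    apply Real.sqrt_le_sqrt
    linarith [Real.pi_pos]
  have h2 : 0 < Real.sqrt (2 * Real.pi) := by positivity
  have h3 := Real.exp_pos 16
  have e : (Real.sqrt (2 * Real.pi))⁻¹ * Real.exp 16 * (2 * ε * Real.sqrt Real.pi) =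
      2 * Real.exp 16 * ε * (Real.sqrt Real.pi / Real.sqrt (2 * Real.pi)) := by
    field_simp
  rw [e]
  have h4 : Real.sqrt Real.pi / Real.sqrt (2 * Real.pi) ≤ 1 := by
    rw [div_le_one h2]
    exact h1
  have h5 : 0 ≤ 2 * Real.exp 16 * ε := by positivity
  nlinarith

/-! ### the proof -/

theorem diff_bd {T : ℝ} (hT : 1 ≤ T) (y v : ℝ) : |DT T (y + v) - DT T y| ≤
    2 * C1 * Real.exp (y / 2) * Real.exp (2 * |v|) := by
  have hC := C1_pos
  have h1 := DT_bound hT (y + v)
  have h2 := DT_bound hT y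
  have h3 : Real.exp ((y + v) / 2) ≤ Real.exp (y / 2) * Real.exp (2 * |v|) := by
    rw [← Real.exp_add]
    refine Real.exp_le_exp.2 ?_
    have := le_abs_self v
    have := abs_nonneg v
    linarith
  have h4 : Real.exp (y / 2) ≤ Real.exp (y / 2) * Real.exp (2 * |v|) := by
    have : 1 ≤ Real.exp (2 * |v|) := Real.one_le_exp (by positivity)
    nlinarith [Real.exp_pos (y / 2)]
  refine (abs_sub _ _).trans ?_
  calc |DT T (y + v)| + |DT T y| ≤ C1 * (Real.exp (y / 2) * Real.exp (2 * |v|)) +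
        C1 * (Real.exp (y / 2) * Real.exp (2 * |v|)) :=
        add_le_add (h1.trans (mul_le_mul_of_nonneg_left h3 hC.le))
          (h2.trans (mul_le_mul_of_nonneg_left h4 hC.le))
    _ = _ := by ring

theorem int_diff {T : ℝ} (hT : 1 ≤ T) {ε : ℝ} (hε : 0 < ε) (hε1 : ε ≤ 1) (y : ℝ) :
    Integrable (fun v => gs ε v * |DT T (y + v) - DT T y|) := by
  refine ((gsI1 hε hε1).1.const_mul (2 * C1 * Real.exp (y / 2))).mono' ?_
    (Eventually.of_forall fun v => ?_)
  · have h1 : Measurable fun v => DT T (y + v) := (meas_DT T).comp (by fun_prop)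
    have h2 : Measurable (gs ε) := (gs_cont ε).measurable
    have : Measurable (fun v => gs ε v * |DT T (y + v) - DT T y|) := by fun_prop
    exact this.aestronglyMeasurable
  · rw [Real.norm_eq_abs, abs_of_nonneg (mul_nonneg (gs_pos hε v).le (abs_nonneg _))]
    calc gs ε v * |DT T (y + v) - DT T y| ≤
        gs ε v * (2 * C1 * Real.exp (y / 2) * Real.exp (2 * |v|)) :=
          mul_le_mul_of_nonneg_left (diff_bd hT y v) (gs_pos hε v).le
      _ = _ := by ring

theorem int_gsDT {T : ℝ} (hT : 1 ≤ T) {ε : ℝ} (hε : 0 < ε) (hε1 : ε ≤ 1) (y : ℝ) :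
    Integrable (fun v => gs ε v * DT T (y + v)) := by
  have h1 : Measurable fun v => DT T (y + v) := (meas_DT T).comp (by fun_prop)
  have h2 : Measurable (gs ε) := (gs_cont ε).measurable
  refine ((int_diff hT hε hε1 y).add ((gs_int hε).mul_const |DT T y|)).mono' ?_
    (Eventually.of_forall fun v => ?_)
  · have : Measurable (fun v => gs ε v * DT T (y + v)) := by fun_prop
    exact this.aestronglyMeasurable
  · rw [Real.norm_eq_abs, abs_mul, abs_of_pos (gs_pos hε v)]
    simp only [Pi.add_apply]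
    rw [← mul_add]
    refine mul_le_mul_of_nonneg_left ?_ (gs_pos hε v).le
    have := abs_sub_abs_le_abs_sub (DT T (y + v)) (DT T y)
    linarith

theorem DS_close {T : ℝ} (hT : 1 ≤ T) {ε : ℝ} (hε : 0 < ε) (hε1 : ε ≤ 1) (y : ℝ) :
    |DT T y - DS T ε y| ≤ ∫ v, gs ε v * |DT T (y + v) - DT T y| := by
  have e : DT T y - DS T ε y = -∫ v, gs ε v * (DT T (y + v) - DT T y) := by
    have h1 : (fun v => gs ε v * (DT T (y + v) - DT T y)) =
        fun v => gs ε v * DT T (y + v) - gs ε v * DT T y := by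
      funext v
      ring
    rw [h1, integral_sub (int_gsDT hT hε hε1 y) ((gs_int hε).mul_const _), integral_mul_const,
      gs_one hε]
    unfold DS
    ring
  rw [e, abs_neg, ← Real.norm_eq_abs]
  refine (norm_integral_le_integral_norm _).trans (le_of_eq ?_)
  congr 1
  funext v
  rw [Real.norm_eq_abs, abs_mul, abs_of_pos (gs_pos hε v)]

theorem H_bd {T : ℝ} (hT : 1 ≤ T) {ε : ℝ} (hε : 0 < ε) (hε1 : ε ≤ 1) (y : ℝ) :
    ∫ v, gs ε v * |DT T (y + v) - DT T y| ≤ 4 * C1 * Real.exp 8 * Real.exp (y / 2) := by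
  have h1 : ∫ v, gs ε v * |DT T (y + v) - DT T y| ≤
      ∫ v, 2 * C1 * Real.exp (y / 2) * (gs ε v * Real.exp (2 * |v|)) := by
    refine integral_mono (int_diff hT hε hε1 y) ((gsI1 hε hε1).1.const_mul _) fun v => ?_
    simp only
    calc gs ε v * |DT T (y + v) - DT T y| ≤
        gs ε v * (2 * C1 * Real.exp (y / 2) * Real.exp (2 * |v|)) :=
          mul_le_mul_of_nonneg_left (diff_bd hT y v) (gs_pos hε v).le
      _ = _ := by ring
  refine h1.trans ?_
  rw [integral_const_mul]
  have hC := C1_pos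
  have := mul_le_mul_of_nonneg_left (gsI1 hε hε1).2
    (by positivity : 0 ≤ 2 * C1 * Real.exp (y / 2))
  refine this.trans (le_of_eq ?_)
  ring

theorem fubini {T : ℝ} (hT : 1 ≤ T) {ε : ℝ} (hε : 0 < ε) (hε1 : ε ≤ 1) {R : ℝ} (hR : 0 ≤ R) :
    IntegrableOn (fun y => ∫ v, gs ε v * |DT T (y + v) - DT T y|) (Ioc 0 R) ∧
    ∫ y in Ioc 0 R, ∫ v, gs ε v * |DT T (y + v) - DT T y| ≤
      2 * C3 * Real.exp 16 * Real.exp (2 * R) * ε := by
  have hC := C1_pos
  have hprod : Integrable (Function.uncurry fun y v : ℝ => gs ε v * |DT T (y + v) - DT T y|)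
      ((volume.restrict (Ioc 0 R)).prod volume) := by
    have hf : Integrable (fun y : ℝ => 2 * C1 * Real.exp (y / 2)) (volume.restrict (Ioc 0 R)) := by
      have : Continuous fun y : ℝ => 2 * C1 * Real.exp (y / 2) := by fun_prop
      exact (this.integrableOn_Icc (a := 0) (b := R)).mono_set Ioc_subset_Icc_self
    refine (hf.mul_prod (gsI1 hε hε1).1).mono' ?_ (Eventually.of_forall ?_)
    · have h1 : Measurable fun p : ℝ × ℝ => DT T (p.1 + p.2) := (meas_DT T).comp (by fun_prop)
      have h2 : Measurable fun p : ℝ × ℝ => DT T p.1 := (meas_DT T).comp (by fun_prop)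
      have h3 : Measurable fun p : ℝ × ℝ => gs ε p.2 := (gs_cont ε).measurable.comp (by fun_prop)
      have : Measurable (Function.uncurry fun y v : ℝ => gs ε v * |DT T (y + v) - DT T y|) := by
        unfold Function.uncurry
        fun_prop
      exact this.aestronglyMeasurable
    · rintro ⟨y, v⟩
      simp only [Function.uncurry]
      rw [Real.norm_eq_abs, abs_of_nonneg (mul_nonneg (gs_pos hε v).le (abs_nonneg _))]
      calc gs ε v * |DT T (y + v) - DT T y| ≤
          gs ε v * (2 * C1 * Real.exp (y / 2) * Real.exp (2 * |v|)) :=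
            mul_le_mul_of_nonneg_left (diff_bd hT y v) (gs_pos hε v).le
        _ = _ := by ring
  refine ⟨hprod.integral_prod_left, ?_⟩
  rw [integral_integral_swap hprod]
  have e : ∀ v : ℝ, ∫ y in Ioc 0 R, gs ε v * |DT T (y + v) - DT T y| =
      gs ε v * ∫ y in (0:ℝ)..R, |DT T (y + v) - DT T y| := by
    intro v
    rw [integral_const_mul, intervalIntegral.integral_of_le hR]
  have hC3 := C3_pos
  have hi : Integrable fun v => C3 * Real.exp (2 * R) * (gs ε v * (|v| * Real.exp (2 * |v|))) :=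
    (gsI2 hε hε1).1.const_mul _
  have h1 : ∫ v, ∫ y in Ioc 0 R, gs ε v * |DT T (y + v) - DT T y| ≤
      ∫ v, C3 * Real.exp (2 * R) * (gs ε v * (|v| * Real.exp (2 * |v|))) := by
    refine integral_mono hprod.integral_prod_right hi fun v => ?_
    simp only
    rw [e]
    calc gs ε v * ∫ y in (0:ℝ)..R, |DT T (y + v) - DT T y| ≤
        gs ε v * (C3 * (|v| * Real.exp (2 * |v|)) * Real.exp (2 * R)) :=
          mul_le_mul_of_nonneg_left (DT_shift hT hR v) (gs_pos hε v).le
      _ = _ := by ring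
  refine h1.trans ?_
  rw [integral_const_mul]
  have := mul_le_mul_of_nonneg_left (gsI2 hε hε1).2
    (by positivity : 0 ≤ C3 * Real.exp (2 * R))
  refine this.trans (le_of_eq ?_)
  ring

/-- the constant of the final estimate -/
noncomputable def C4 : ℝ := 4 * C1 * Real.exp 8 * (2 * C3 * Real.exp 16)

theorem C4_pos : 0 < C4 := by
  have := C1_pos
  have := C3_pos
  unfold C4
  positivity

theorem final_bd {T : ℝ} (hT : 1 ≤ T) {ε : ℝ} (hε : 0 < ε) (hε1 : ε ≤ 1) {R : ℝ} (hR : 0 ≤ R) :
    ∫ y in (0:ℝ)..R, (DT T y - DS T ε y) ^ 2 ≤ C4 * Real.exp (3 * R) * ε := by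
  rw [intervalIntegral.integral_of_le hR]
  obtain ⟨h1, h2⟩ := fubini hT hε hε1 hR
  have hC := C1_pos
  have hC3 := C3_pos
  set M : ℝ := 4 * C1 * Real.exp 8 * Real.exp (R / 2) with hM
  have hM0 : 0 ≤ M := by positivity
  have h3 : ∫ y in Ioc 0 R, (DT T y - DS T ε y) ^ 2 ≤
      ∫ y in Ioc 0 R, M * ∫ v, gs ε v * |DT T (y + v) - DT T y| := by
    refine integral_mono_of_nonneg (Eventually.of_forall fun y => sq_nonneg _) (h1.const_mul M) ?_
    refine (ae_restrict_mem measurableSet_Ioc).mono fun y hy => ?_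
    have a1 := DS_close hT hε hε1 y
    have a2 := H_bd hT hε hε1 y
    have a3 : Real.exp (y / 2) ≤ Real.exp (R / 2) := Real.exp_le_exp.2 (by linarith [hy.2])
    have a4 : |DT T y - DS T ε y| ≤ M := by
      refine (a1.trans a2).trans ?_
      exact mul_le_mul_of_nonneg_left a3 (by positivity)
    simp only
    rw [← sq_abs, sq]
    exact mul_le_mul a4 a1 (abs_nonneg _) hM0
  refine h3.trans ?_
  rw [integral_const_mul]
  refine (mul_le_mul_of_nonneg_left h2 hM0).trans ?_
  have e : Real.exp (R / 2) * Real.exp (2 * R) ≤ Real.exp (3 * R) := by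
    rw [← Real.exp_add]
    exact Real.exp_le_exp.2 (by linarith)
  calc M * (2 * C3 * Real.exp 16 * Real.exp (2 * R) * ε) =
      C4 * (Real.exp (R / 2) * Real.exp (2 * R)) * ε := by
        rw [hM]
        unfold C4
        ring
    _ ≤ C4 * Real.exp (3 * R) * ε := by
        have := C4_pos
        exact mul_le_mul_of_nonneg_right (mul_le_mul_of_nonneg_left e this.le) hε.le

/-- PV2 -/
theorem main : S_PV2 := by
  intro A hA
  obtain ⟨k, hk⟩ := exists_nat_ge (3 * A)
  refine ⟨k + 3, max 1 C4, fun T hT ε hε hεK => ?_⟩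
  have hT1 : 1 ≤ T := (le_max_left _ _).trans hT
  have hTC : C4 ≤ T := (le_max_right _ _).trans hT
  have hT0 : 0 < T := by linarith
  have hL : 0 ≤ Real.log T := Real.log_nonneg hT1
  have hpow : 1 ≤ T ^ (k + 3) := one_le_pow₀ hT1
  have hε1 : ε ≤ 1 := hεK.trans (by rw [div_le_one (by positivity)]; exact hpow)
  have h1 := final_bd hT1 hε hε1 (R := A * Real.log T) (by positivity)
  refine h1.trans ?_
  have h2 : Real.exp (3 * (A * Real.log T)) ≤ T ^ k := by
    have e1 : T ^ k = Real.exp (k * Real.log T) := by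
      rw [mul_comm, Real.exp_mul, Real.exp_log hT0, Real.rpow_natCast]
    rw [e1]
    refine Real.exp_le_exp.2 ?_
    nlinarith
  have hC4 := C4_pos
  calc C4 * Real.exp (3 * (A * Real.log T)) * ε ≤ T * T ^ k * (1 / T ^ (k + 3)) :=
        mul_le_mul (mul_le_mul hTC h2 (Real.exp_pos _).le hT0.le) hεK hε.le (by positivity)
    _ = 1 / T ^ 2 := by
        rw [pow_add]
        field_simp

end Pool.Agent.N278.PV
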